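import Mathlib

namespace Pool.Agent.Results.MP_6ec7bd_co.ThresholdFails

/-! ### Definitions (words are lists of the digits `0`, `1`, most significant digit first) -/

/-- `|w|_v`: the number of (possibly overlapping) occurrences of `v` in `w`, counted as the number
of suffixes of `w` that have `v` as a prefix. -/
def occ (v w : List ℕ) : ℕ := w.tails.countP fun t => decide (v <+: t)

/-- `[w]_2` -/
def val (w : List ℕ) : ℕ := Nat.ofDigits 2 w.reverse

/-- `(n)_2`, with `(0)_2` the empty word -/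
def bin (n : ℕ) : List ℕ := (Nat.digits 2 n).reverse

/-- the number `i` of leading zeros of `v` -/
def lead (v : List ℕ) : ℕ := (v.takeWhile fun c => decide (c = 0)).length

/-- the number `j` of trailing zeros of `v` -/
def trail (v : List ℕ) : ℕ := lead v.reverse

/-- `e_v(n) = |0^i (n)_2|_v` -/
def e (v : List ℕ) (n : ℕ) : ℕ := occ v (List.replicate (lead v) 0 ++ bin n)

/-- `A_v(0,d) = min {l ≥ 1 : e_v(ld) is odd}` -/
noncomputable def A (v : List ℕ) (d : ℕ) : ℕ := sInf {l | 1 ≤ l ∧ Odd (e v (l * d))}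

/-- `v ∈ V`: a binary word of length at least two that contains a `1` -/
def InV (v : List ℕ) : Prop := 2 ≤ v.length ∧ (∀ c ∈ v, c < 2) ∧ 1 ∈ v

/-- the condition on the pairs of words of length `|v| - 1` -/
def PairOK (v x y : List ℕ) : Prop :=
  x.length = v.length - 1 ∧ y.length = v.length - 1 ∧ (∀ c ∈ x, c < 2) ∧ (∀ c ∈ y, c < 2) ∧
  Odd (occ v (List.replicate (lead v) 0 ++ x) + occ v (y ++ x) +
    occ v (y ++ List.replicate (trail v) 0))

/-- `(x, y)` is the lexicographically least pair (for binary words of equal length the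
lexicographic order is the order of the numbers they represent) -/
def IsMinPair (v x y : List ℕ) : Prop :=
  PairOK v x y ∧ ∀ x' y', PairOK v x' y' → val x < val x' ∨ (val x = val x' ∧ val y ≤ val y')

/-- `C_v`, computed from the least pair `(x, y)` -/
def Cv (v x : List ℕ) : ℚ := (val x : ℚ) / 2 ^ (v.length - 1 + trail v)

/-- `B_v`, computed from the least pair `(x, y)` -/
def Bv (v x y : List ℕ) : ℚ := (val y : ℚ) - 2 ^ trail v * Cv v x

/-- The statement of the problem. -/
def Statement : Prop := ∀ v x y : List ℕ, InV v → v ≠ [1, 1] → IsMinPair v x y →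
  ∀ d : ℕ, 2 ^ (2 * v.length + 1) ≤ d →
    (A v d : ℚ) ≤ Cv v x * d + Bv v x y ∧
    ((A v d : ℚ) = Cv v x * d + Bv v x y ↔
      ∃ k : ℕ, 2 * v.length - 2 ≤ k ∧ d = 2 ^ trail v * (2 ^ k + 1))

/-! ### Occurrences -/

lemma occ_nil {v : List ℕ} (hv : v ≠ []) : occ v [] = 0 := by
  simp [occ, hv]

lemma occ_cons (v : List ℕ) (a : ℕ) (w : List ℕ) :
    occ v (a :: w) = (if v <+: a :: w then 1 else 0) + occ v w := by
  unfold occ
  rw [List.tails_cons, List.countP_cons, add_comm]
  simp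

/-- the word `1 0^m` -/
def pw (m : ℕ) : List ℕ := 1 :: List.replicate m 0

lemma pw_len (m : ℕ) : (pw m).length = m + 1 := by simp [pw]

lemma lead_pw (m : ℕ) : lead (pw m) = 0 := by simp [lead, pw]

lemma trail_pw (m : ℕ) : trail (pw m) = m := by
  unfold trail lead pw
  rw [List.reverse_cons, List.reverse_replicate, List.takeWhile_append_of_pos]
  · simp
  · intro c hc
    simp [List.eq_of_mem_replicate hc]

lemma occ_zero_cons (m : ℕ) (w : List ℕ) : occ (pw m) (0 :: w) = occ (pw m) w := by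
  rw [occ_cons, if_neg]
  · simp
  · intro h
    rw [pw, List.cons_prefix_cons] at h
    omega

lemma occ_one_cons (m : ℕ) (w : List ℕ) :
    occ (pw m) (1 :: w) = (if List.replicate m 0 <+: w then 1 else 0) + occ (pw m) w := by
  rw [occ_cons]
  congr 1
  simp [pw, List.cons_prefix_cons]

lemma occ_zeros_append (m k : ℕ) (w : List ℕ) :
    occ (pw m) (List.replicate k 0 ++ w) = occ (pw m) w := by
  induction k with
  | zero => simp
  | succ k ih => rw [List.replicate_succ, List.cons_append, occ_zero_cons, ih]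

lemma occ_zeros (m k : ℕ) : occ (pw m) (List.replicate k 0) = 0 := by
  have := occ_zeros_append m k []
  rw [List.append_nil] at this
  rw [this, occ_nil (by simp [pw])]

lemma occ_one_zeros (m : ℕ) : occ (pw m) (1 :: List.replicate m 0) = 1 := by
  rw [occ_one_cons, if_pos (List.prefix_refl _), occ_zeros]

lemma not_prefix_of_getElem {m k : ℕ} {w : List ℕ} (hk : k < m) (hw : w[k]? = some 1) :
    ¬ List.replicate m 0 <+: w := by
  rintro ⟨t, ht⟩
  rw [← ht, List.getElem?_append_left (by simpa using hk)] at hw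
  simp [hk] at hw

lemma not_prefix_of_length {m : ℕ} {w : List ℕ} (hw : w.length < m) :
    ¬ List.replicate m 0 <+: w := by
  intro h
  have := h.length_le
  simp at this
  omega

/-! ### The least pair -/

/-- the word `0^{m-1} 1` -/
def xw (m : ℕ) : List ℕ := List.replicate (m - 1) 0 ++ [1]

lemma xw_len {m : ℕ} (hm : 1 ≤ m) : (xw m).length = m := by simp [xw]; omega

lemma val_xw (m : ℕ) : val (xw m) = 1 := by
  unfold val xw
  rw [List.reverse_append, List.reverse_replicate]
  simp only [List.reverse_cons, List.reverse_nil, List.nil_append, List.singleton_append]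
  rw [Nat.ofDigits_cons]
  have : ∀ k, Nat.ofDigits 2 (List.replicate k 0) = 0 := by
    intro k
    induction k with
    | zero => simp
    | succ k ih => rw [List.replicate_succ, Nat.ofDigits_cons, ih]
  rw [this]

lemma eq_zeros_of_val {w : List ℕ} (h : val w = 0) : w = List.replicate w.length 0 := by
  have h1 : ∀ u : List ℕ, Nat.ofDigits 2 u = 0 → u = List.replicate u.length 0 := by
    intro u
    induction u with
    | nil => intro _; rfl
    | cons a u ih =>
      intro h
      rw [Nat.ofDigits_cons] at h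
      have h2 : a = 0 := by omega
      have h3 : Nat.ofDigits 2 u = 0 := by omega
      rw [h2, List.length_cons, List.replicate_succ, ← ih h3]
  have h2 := h1 w.reverse h
  have h3 := congrArg List.reverse h2
  rw [List.reverse_reverse, List.reverse_replicate, List.length_reverse] at h3
  exact h3

lemma minPair {m : ℕ} (hm : 1 ≤ m) : IsMinPair (pw m) (xw m) (xw m) := by
  have hb : ∀ c ∈ xw m, c < 2 := by
    intro c hc
    unfold xw at hc
    rcases List.mem_append.1 hc with h | h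
    · rw [List.eq_of_mem_replicate h]; norm_num
    · simp only [List.mem_singleton] at h
      omega
  have hz : occ (pw m) (xw m) = 0 := by
    unfold xw
    rw [occ_zeros_append, occ_one_cons, if_neg (not_prefix_of_length (by simp; omega)),
      occ_nil (by simp [pw])]
  refine ⟨⟨by rw [xw_len hm, pw_len]; omega, by rw [xw_len hm, pw_len]; omega, hb, hb, ?_⟩, ?_⟩
  · rw [lead_pw, trail_pw]
    have h1 : occ (pw m) (xw m ++ xw m) = 0 := by
      have e1 : xw m ++ xw m = List.replicate (m - 1) 0 ++ (1 :: xw m) := by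
        unfold xw; simp
      rw [e1, occ_zeros_append, occ_one_cons, hz, if_neg]
      apply not_prefix_of_getElem (k := m - 1) (by omega)
      unfold xw
      rw [List.getElem?_append_right (by simp)]
      simp
    have h2 : occ (pw m) (xw m ++ List.replicate m 0) = 1 := by
      have e1 : xw m ++ List.replicate m 0 =
          List.replicate (m - 1) 0 ++ (1 :: List.replicate m 0) := by
        unfold xw; simp
      rw [e1, occ_zeros_append, occ_one_zeros]
    rw [h1, h2]
    simp only [List.replicate_zero, List.nil_append, hz]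
    decide
  · rintro x' y' ⟨hx, hy, -, -, hodd⟩
    rw [pw_len] at hx hy
    rw [lead_pw, trail_pw, List.replicate_zero, List.nil_append] at hodd
    rw [val_xw]
    have hx0 : val x' ≠ 0 := by
      intro h
      have e1 := eq_zeros_of_val h
      have e2 : x' = List.replicate m 0 := by
        rw [e1, hx]; rfl
      rw [e2, occ_zeros, zero_add] at hodd
      exact (Nat.not_odd_iff_even.2 ⟨_, rfl⟩) hodd
    by_cases hx1 : val x' = 1
    · right
      refine ⟨hx1.symm, ?_⟩
      by_contra hy0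
      have e1 := eq_zeros_of_val (w := y') (by omega)
      have e2 : y' = List.replicate m 0 := by
        rw [e1, hy]; rfl
      rw [e2, occ_zeros_append, ← List.replicate_add, occ_zeros, add_zero] at hodd
      exact (Nat.not_odd_iff_even.2 ⟨_, rfl⟩) hodd
    · left
      omega

/-! ### The multiples of `2^N - 1` -/

lemma occ_pos_iff {v w : List ℕ} (h : occ v w ≠ 0) : ∃ u t, w = u ++ (v ++ t) := by
  unfold occ at h
  rw [List.countP_eq_length_filter] at h
  have h1 : (w.tails.filter fun t => decide (v <+: t)) ≠ [] := by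
    intro h2
    rw [h2] at h
    simp at h
  obtain ⟨s, hs⟩ := List.exists_mem_of_ne_nil _ h1
  rw [List.mem_filter, List.mem_tails] at hs
  obtain ⟨⟨u, hu⟩, h3⟩ := hs
  obtain ⟨t, ht⟩ : v <+: s := by simpa using h3
  exact ⟨u, t, by rw [ht, hu]⟩

lemma occ_bin {m n : ℕ} (h : occ (pw m) (bin n) ≠ 0) : ∃ p, (n / 2 ^ p) % 2 ^ (m + 1) = 2 ^ m := by
  obtain ⟨u, t, hut⟩ := occ_pos_iff h
  have h1 : Nat.digits 2 n = t.reverse ++ (List.replicate m 0 ++ [1]) ++ u.reverse := by
    have := congrArg List.reverse hut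
    unfold bin pw at this
    rw [List.reverse_reverse] at this
    rw [this]
    simp
  have h2 := Nat.ofDigits_digits 2 n
  rw [h1, Nat.ofDigits_append, Nat.ofDigits_append, Nat.ofDigits_append] at h2
  have h3 : ∀ k, Nat.ofDigits 2 (List.replicate k 0) = 0 := by
    intro k
    induction k with
    | zero => simp
    | succ k ih => rw [List.replicate_succ, Nat.ofDigits_cons, ih]
  have h4 : Nat.ofDigits 2 t.reverse < 2 ^ t.length := by
    have := Nat.ofDigits_lt_base_pow_length (b := 2) (l := t.reverse) (by norm_num) (by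
      intro x hx
      apply Nat.digits_lt_base (b := 2) (m := n) (by norm_num)
      rw [h1]
      simp [hx])
    rwa [List.length_reverse] at this
  refine ⟨t.length, ?_⟩
  simp only [h3, List.length_append, List.length_reverse, List.length_replicate,
    Nat.ofDigits_singleton, List.length_singleton] at h2
  set q := Nat.ofDigits 2 u.reverse
  set r := Nat.ofDigits 2 t.reverse
  have h5 : n = 2 ^ t.length * (2 ^ (m + 1) * q + 2 ^ m) + r := by
    rw [← h2]
    ring
  have h6 : n / 2 ^ t.length = 2 ^ (m + 1) * q + 2 ^ m := by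
    rw [h5, Nat.mul_add_div (by positivity), Nat.div_eq_of_lt h4, add_zero]
  rw [h6, Nat.mul_add_mod, Nat.mod_eq_of_lt]
  exact Nat.pow_lt_pow_right (by norm_num) (by omega)

lemma no_occ {m N l : ℕ} (hm : 1 ≤ m) (hN : 2 * m ≤ N) (hl : 1 ≤ l) (hl2 : l < 2 ^ m) :
    occ (pw m) (bin (l * (2 ^ N - 1))) = 0 := by
  by_contra h
  obtain ⟨p, hp⟩ := occ_bin h
  have hNpos : 1 ≤ 2 ^ N := Nat.one_le_two_pow
  obtain ⟨k, rfl⟩ : ∃ k, l = k + 1 := ⟨l - 1, by omega⟩
  by_cases hpN : N ≤ p
  · -- `p ≥ N`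
    have h1 : (k + 1) * (2 ^ N - 1) < 2 ^ N * 2 ^ m := by
      calc (k + 1) * (2 ^ N - 1) ≤ (k + 1) * 2 ^ N := Nat.mul_le_mul_left _ (by omega)
        _ < 2 ^ m * 2 ^ N := Nat.mul_lt_mul_of_pos_right hl2 (by omega)
        _ = _ := by ring
    have h2 : (k + 1) * (2 ^ N - 1) / 2 ^ p < 2 ^ m := by
      rw [Nat.div_lt_iff_lt_mul (by positivity)]
      refine lt_of_lt_of_le h1 ?_
      rw [mul_comm]
      exact Nat.mul_le_mul_left _ (Nat.pow_le_pow_right (by norm_num) hpN)
    rw [Nat.mod_eq_of_lt (h2.trans (Nat.pow_lt_pow_right (by norm_num) (by omega)))] at hp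
    omega
  · push Not at hpN
    by_cases hpm : m ≤ p
    · -- `m ≤ p < N`: the digit at position `p` is one
      obtain ⟨c, hc⟩ : ∃ c, N = p + (c + 1) := ⟨N - p - 1, by omega⟩
      have h3 : 2 ^ m ≤ 2 ^ p := Nat.pow_le_pow_right (by norm_num) hpm
      have h4 : (k + 1) * (2 ^ N - 1) =
          2 ^ p * ((k + 1) * 2 ^ (c + 1) - 1) + (2 ^ p - (k + 1)) := by
        have h5 : 1 ≤ (k + 1) * 2 ^ (c + 1) := Nat.mul_pos (by omega) (by positivity)
        zify [hNpos, h5, hl2.le.trans h3]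
        rw [hc]
        ring
      have h5 : (k + 1) * (2 ^ N - 1) / 2 ^ p = (k + 1) * 2 ^ (c + 1) - 1 := by
        rw [h4, Nat.mul_add_div (by positivity), Nat.div_eq_of_lt (by omega), add_zero]
      rw [h5] at hp
      have h6 : 2 ∣ ((k + 1) * 2 ^ (c + 1) - 1) % 2 ^ (m + 1) := by
        rw [hp]
        exact dvd_pow_self 2 (by omega)
      have h7 : 2 ∣ ((k + 1) * 2 ^ (c + 1) - 1) :=
        (Nat.dvd_mod_iff (dvd_pow_self 2 (by omega))).1 h6
      have h8 : 2 ∣ (k + 1) * 2 ^ (c + 1) := Dvd.dvd.mul_left (dvd_pow_self 2 (by omega)) _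
      have h9 : 1 ≤ (k + 1) * 2 ^ (c + 1) := Nat.mul_pos (by omega) (by positivity)
      omega
    · -- `p < m`, so `p + m ≤ N`
      push Not at hpm
      obtain ⟨c, hc⟩ : ∃ c, N = p + m + c := ⟨N - p - m, by omega⟩
      have h3 : 2 ^ m ≤ 2 ^ (p + m) := Nat.pow_le_pow_right (by norm_num) (by omega)
      have h4 : (k + 1) * (2 ^ N - 1) =
          2 ^ (p + m) * ((k + 1) * 2 ^ c - 1) + (2 ^ (p + m) - (k + 1)) := by
        have h5 : 1 ≤ (k + 1) * 2 ^ c := Nat.mul_pos (by omega) (by positivity)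
        zify [hNpos, h5, hl2.le.trans h3]
        rw [hc]
        ring
      -- the digits at positions `p, …, p+m-1` vanish
      have h5 : ((k + 1) * (2 ^ N - 1) / 2 ^ p) % 2 ^ m = 0 := by
        have h6 : ((k + 1) * (2 ^ N - 1) / 2 ^ p) % 2 ^ (m + 1) % 2 ^ m =
            ((k + 1) * (2 ^ N - 1) / 2 ^ p) % 2 ^ m := by
          rw [Nat.mod_mod_of_dvd _ (pow_dvd_pow 2 (by omega))]
        rw [← h6, hp, Nat.mod_self]
      have h6 : (k + 1) * (2 ^ N - 1) % 2 ^ (p + m) = 2 ^ (p + m) - (k + 1) := by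
        rw [h4, Nat.mul_add_mod, Nat.mod_eq_of_lt (by omega)]
      have h7 : (k + 1) * (2 ^ N - 1) % 2 ^ (p + m) < 2 ^ p := by
        have h8 := Nat.mod_mul (x := (k + 1) * (2 ^ N - 1)) (a := 2 ^ p) (b := 2 ^ m)
        rw [h5, mul_zero, add_zero, ← pow_add] at h8
        rw [h8]
        exact Nat.mod_lt _ (by positivity)
      rw [h6] at h7
      have h8 : 2 ^ (p + m) = 2 ^ p * 2 ^ m := pow_add 2 p m
      have h9 : 1 ≤ 2 ^ p := Nat.one_le_two_pow
      have h10 : 2 ^ p * 2 ^ m < 2 ^ p + (k + 1) := by omega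
      have h11 : 2 ^ p * 2 ^ m < 2 ^ p + 2 ^ m := by omega
      obtain ⟨A, hA⟩ : ∃ A, 2 ^ p = A + 1 := ⟨2 ^ p - 1, by omega⟩
      obtain ⟨B, hB⟩ : ∃ B, 2 ^ m = B + 1 := ⟨2 ^ m - 1, by omega⟩
      rw [hA, hB] at h10 h11
      have h12 : (A + 1) * (B + 1) = A * B + A + B + 1 := by ring
      have h13 : k + 1 ≤ B := by omega
      have h14 : 0 ≤ A * B := Nat.zero_le _
      omega

lemma bin_top (m N : ℕ) (hN : 1 ≤ N) : bin (2 ^ m * (2 ^ N - 1)) =
    List.replicate N 1 ++ List.replicate m 0 := by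
  have h1 : ∀ N, Nat.digits 2 (2 ^ N - 1) = List.replicate N 1 := by
    intro N
    induction N with
    | zero => simp
    | succ N ih =>
      have h2 : 1 ≤ 2 ^ N := Nat.one_le_two_pow
      have h3 : 2 ^ (N + 1) - 1 = 1 + 2 * (2 ^ N - 1) := by rw [pow_succ]; omega
      rw [h3, Nat.digits_add 2 (by norm_num) 1 _ (by norm_num) (by norm_num), ih,
        List.replicate_succ]
  have h4 : 0 < 2 ^ N - 1 := by
    have : 2 ^ 1 ≤ 2 ^ N := Nat.pow_le_pow_right (by norm_num) hN
    omega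
  unfold bin
  rw [Nat.digits_base_pow_mul (by norm_num) h4, h1, List.reverse_append,
    List.reverse_replicate, List.reverse_replicate]

lemma occ_top {m N : ℕ} (hm : 1 ≤ m) (hN : 1 ≤ N) :
    occ (pw m) (bin (2 ^ m * (2 ^ N - 1))) = 1 := by
  rw [bin_top m N hN]
  induction N with
  | zero => omega
  | succ N ih =>
    rw [List.replicate_succ, List.cons_append]
    rcases Nat.eq_zero_or_pos N with rfl | hN'
    · simp only [List.replicate_zero, List.nil_append]
      exact occ_one_zeros m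
    · rw [occ_one_cons, ih (by omega), if_neg]
      apply not_prefix_of_getElem (k := 0) (by omega)
      obtain ⟨n, rfl⟩ : ∃ n, N = n + 1 := ⟨N - 1, by omega⟩
      rw [List.replicate_succ]
      simp

lemma A_eq {m N : ℕ} (hm : 1 ≤ m) (hN : 2 * m ≤ N) : A (pw m) (2 ^ N - 1) = 2 ^ m := by
  unfold A
  have hmem : 2 ^ m ∈ {l | 1 ≤ l ∧ Odd (e (pw m) (l * (2 ^ N - 1)))} := by
    refine ⟨Nat.one_le_two_pow, ?_⟩
    unfold e
    rw [lead_pw, List.replicate_zero, List.nil_append, occ_top hm (by omega)]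
    decide
  have hzero : ∀ l, 1 ≤ l → l < 2 ^ m → e (pw m) (l * (2 ^ N - 1)) = 0 := by
    intro l hl1 hl2
    unfold e
    rw [lead_pw, List.replicate_zero, List.nil_append, no_occ hm hN hl1 hl2]
  apply le_antisymm (Nat.sInf_le hmem)
  by_contra hlt
  push Not at hlt
  obtain ⟨h1, h2⟩ := Nat.sInf_mem ⟨_, hmem⟩
  rw [hzero _ h1 hlt] at h2
  exact absurd h2 (by decide)

lemma Cv_pw (m : ℕ) : Cv (pw m) (xw m) = 1 / 2 ^ (2 * m) := by
  unfold Cv
  rw [val_xw, pw_len, trail_pw, Nat.add_sub_cancel, ← two_mul]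
  simp

lemma Bv_pw (m : ℕ) : Bv (pw m) (xw m) (xw m) = 1 - 1 / 2 ^ m := by
  unfold Bv
  rw [val_xw, Cv_pw, trail_pw]
  have h : (2 : ℚ) ^ (2 * m) = 2 ^ m * 2 ^ m := by rw [two_mul, pow_add]
  have h2 : (2 : ℚ) ^ m ≠ 0 := by positivity
  rw [h]
  field_simp
  simp

/-- the family of counterexamples -/
lemma family {m N : ℕ} (hm : 5 ≤ m) (h1 : 2 * m + 4 ≤ N) (h2 : N + 1 ≤ 3 * m) :
    InV (pw m) ∧ pw m ≠ [1, 1] ∧ IsMinPair (pw m) (xw m) (xw m) ∧
    2 ^ (2 * (pw m).length + 1) ≤ 2 ^ N - 1 ∧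
    Cv (pw m) (xw m) * ((2 ^ N - 1 : ℕ) : ℚ) + Bv (pw m) (xw m) (xw m) <
      (A (pw m) (2 ^ N - 1) : ℚ) := by
  refine ⟨⟨by rw [pw_len]; omega, ?_, by simp [pw]⟩, ?_, minPair (by omega), ?_, ?_⟩
  · intro c hc
    unfold pw at hc
    rcases List.mem_cons.1 hc with h | h
    · omega
    · rw [List.eq_of_mem_replicate h]; norm_num
  · intro h
    have := congrArg List.length h
    rw [pw_len] at this
    simp at this
    omega
  · rw [pw_len]
    have h3 : 2 ^ (2 * (m + 1) + 2) ≤ 2 ^ N := Nat.pow_le_pow_right (by norm_num) (by omega)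
    have h4 : 2 ^ (2 * (m + 1) + 2) = 2 * 2 ^ (2 * (m + 1) + 1) := by rw [pow_succ]; ring
    have h5 : 1 ≤ 2 ^ (2 * (m + 1) + 1) := Nat.one_le_two_pow
    omega
  · rw [A_eq (by omega) (by omega), Cv_pw, Bv_pw]
    have h3 : ((2 ^ N - 1 : ℕ) : ℚ) = 2 ^ N - 1 := by
      rw [Nat.cast_sub Nat.one_le_two_pow]; push_cast; ring
    rw [h3]
    obtain ⟨c, hc⟩ : ∃ c, N = 2 * m + c := ⟨N - 2 * m, by omega⟩
    have h4 : (2 : ℚ) ^ N = 2 ^ (2 * m) * 2 ^ c := by rw [hc, pow_add]
    have h5 : (0 : ℚ) < 2 ^ (2 * m) := by positivity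
    have h6 : (0 : ℚ) < 2 ^ m := by positivity
    have h7 : 1 / 2 ^ (2 * m) * ((2 : ℚ) ^ N - 1) = 2 ^ c - 1 / 2 ^ (2 * m) := by
      rw [h4]
      field_simp
    rw [h7]
    have h8 : (2 : ℚ) * 2 ^ c ≤ 2 ^ m := by
      have : (2 : ℚ) ^ (c + 1) ≤ 2 ^ m := pow_le_pow_right₀ (by norm_num) (by omega)
      rw [pow_succ] at this
      linarith
    have h9 : (1 : ℚ) ≤ 2 ^ c := one_le_pow₀ (by norm_num)
    have h10 : (0 : ℚ) < 1 / 2 ^ (2 * m) := by positivity
    have h11 : (0 : ℚ) < 1 / 2 ^ m := by positivity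
    push_cast
    linarith

/-- **Theorem.** The statement of the problem is false. More precisely, for `v = 1 0^m` with
`m ≥ 5` and `d = 2^N - 1` with `2m + 4 ≤ N ≤ 3m - 1` one has `d ≥ 2^{2|v|+1}` and
`A_v(0,d) = 2^m > C_v d + B_v`; moreover the bound also fails for `v = 10000`, `d = 2115`. -/
theorem result :
    ¬ Statement ∧
    (∀ m N : ℕ, 5 ≤ m → 2 * m + 4 ≤ N → N + 1 ≤ 3 * m →
      InV (1 :: List.replicate m 0) ∧ (1 :: List.replicate m 0) ≠ [1, 1] ∧
      2 ^ (2 * (1 :: List.replicate m 0 : List ℕ).length + 1) ≤ 2 ^ N - 1 ∧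
      A (1 :: List.replicate m 0) (2 ^ N - 1) = 2 ^ m ∧
      ∃ x y, IsMinPair (1 :: List.replicate m 0) x y ∧
        Cv (1 :: List.replicate m 0) x * ((2 ^ N - 1 : ℕ) : ℚ) +
          Bv (1 :: List.replicate m 0) x y < (A (1 :: List.replicate m 0) (2 ^ N - 1) : ℚ)) ∧
    (∃ x y, IsMinPair [1, 0, 0, 0, 0] x y ∧ 2 ^ (2 * [1, 0, 0, 0, 0].length + 1) ≤ 2115 ∧
      Cv [1, 0, 0, 0, 0] x * ((2115 : ℕ) : ℚ) + Bv [1, 0, 0, 0, 0] x y <
        (A [1, 0, 0, 0, 0] 2115 : ℚ)) := by
  refine ⟨?_, ?_, ?_⟩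
  · intro h
    obtain ⟨h1, h2, h3, h4, h5⟩ := family (m := 5) (N := 14) (by norm_num) (by norm_num)
      (by norm_num)
    exact absurd (h _ _ _ h1 h2 h3 _ h4).1 (not_le.2 h5)
  · intro m N hm h1 h2
    obtain ⟨a1, a2, a3, a4, a5⟩ := family hm h1 h2
    exact ⟨a1, a2, a4, A_eq (by omega) (by omega), xw m, xw m, a3, a5⟩
  · refine ⟨xw 4, xw 4, minPair (m := 4) (by norm_num), by norm_num, ?_⟩
    have hA : (10 : ℚ) ≤ (A [1, 0, 0, 0, 0] 2115 : ℚ) := by
      have : 10 ≤ A [1, 0, 0, 0, 0] 2115 := by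
        unfold A
        have hmem : 11 ∈ {l | 1 ≤ l ∧ Odd (e [1, 0, 0, 0, 0] (l * 2115))} := by
          refine ⟨by norm_num, ?_⟩
          have : e [1, 0, 0, 0, 0] (11 * 2115) = 1 := by decide +kernel
          rw [this]
          decide
        by_contra hlt
        push Not at hlt
        obtain ⟨h1, h2⟩ := Nat.sInf_mem ⟨_, hmem⟩
        have hall : ∀ l < 10, 1 ≤ l → ¬ Odd (e [1, 0, 0, 0, 0] (l * 2115)) := by decide +kernel
        exact hall _ hlt h1 h2
      exact_mod_cast this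
    have e1 := Cv_pw 4
    have e2 := Bv_pw 4
    have e3 : pw 4 = [1, 0, 0, 0, 0] := rfl
    rw [e3] at e1 e2
    rw [e1, e2]
    refine lt_of_lt_of_le ?_ hA
    norm_num

end Pool.Agent.Results.MP_6ec7bd_co.ThresholdFails
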